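import Pool.Agent.Helper51.CX.St

set_option autoImplicit false

namespace Pool.Agent.Helper53.CXD

open Pool.Agent.Helper51.CX

theorem hLC (hRC : StRC) (hC1 : StC1) (hC2M : StC2M) (hC2Y : StC2Y) (hBDP : StBDP) (hBDD : StBDD) :
    StLC := by
  intro K _ _ _ j h k z d hS hcirc hfe hjd hhd hk hkz hkz'
  have hlo := hS.lo
  have hhi := hS.hi
  have hkj : k ≠ j := by
    rintro rfl
    exact absurd hS.tj hkz.ne
  have hkh : k ≠ h := by
    rintro rfl
    exact absurd hS.th hkz.ne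
  have hj' : L j (z + d) = 10 ^ 60 := by rw [L_add, hS.tj, hjd, add_zero]
  have hh' : L h (z + d) = 10 ^ 60 := by rw [L_add, hS.th, hhd, add_zero]
  obtain ⟨_, _, _, _, _, _, hga, hgb, _⟩ := hT1 j hhi hlo
  have hh64 : h < 64 := by
    rcases hS.hh with e | e
    · rw [e]; omega
    · rw [e]; omega
  obtain ⟨c1, c2⟩ := hC1 K j h (z + d) hlo hhi hS.hh hfe hj' hh' k hk hkj hkh hkz'
  have hM := hC2M K j h z d hS hfe hjd hhd c1
  have hY := hC2Y K j h z d hS hfe hjd hhd c1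
  obtain ⟨m2, m3, m4⟩ := hRC K j h hhi hh64 d hcirc hM hY
  obtain ⟨b1, b2, b3, _⟩ := hBDP K j hlo hhi z hS.fe hS.tj
  obtain ⟨b1', b2', b3', _, _, _, _, _, b9', _⟩ := hBDP K j hlo hhi (z + d) hfe hj'
  obtain ⟨e1, _⟩ := hBDD K j hlo hhi d
  have e1 := e1 hjd
  have n1 := nn_le z d
  have n2 := mm_le z d
  have z5 : z 5 ≤ 2 := by
    have := le_abs_self (z 5 - 1)
    linarith
  have z5' : (z + d) 5 ≤ 2 := by
    have := le_abs_self ((z + d) 5 - 1)
    linarith
  have hd5 : 10 ^ 13 * |d 5| ≤ 1 := by linarith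
  simp only [MZ] at m2 m3 m4
  have key : ∀ (v x y : K), (v = 1 ∨ v = -1) → |y| = |d 5| → 10 ^ 6 * |v * x - 1| ≤ 1 →
      10 ^ 5 * |v * (x + y) - 1| ≤ 1 := by
    intro v x y hv hy hx
    have h1 : |v * (x + y) - 1| ≤ |v * x - 1| + |v * y| := by
      have : v * (x + y) - 1 = (v * x - 1) + v * y := by ring
      rw [this]
      exact abs_add_le _ _
    have h2 : |v * y| = |d 5| := by
      rcases hv with e | e
      · rw [e, one_mul, hy]
      · rw [e, neg_one_mul, abs_neg, hy]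
    rw [h2] at h1
    linarith
  obtain ⟨_, s1, s2, s3, _⟩ := sgn (K := K) j hlo hhi
  have k2 := key _ (z 2) (d 2) s1 m2 hS.n2
  have k3 := key _ (z 3) (d 3) s2 m3 hS.n3
  have k4 := key _ (z 4) (d 4) s3 m4 hS.n4
  have hel : 2 ≤ el j (z + d) := by
    have l2 := neg_abs_le ((v1 j : K) * (z 2 + d 2) - 1)
    have l3 := neg_abs_le ((v2 j : K) * (z 3 + d 3) - 1)
    have l4 := neg_abs_le ((v3 j : K) * (z 4 + d 4) - 1)
    simp only [el, Pi.add_apply]
    linarith
  have hww := abs_nonneg (ww j (z + d))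
  have hpp : 2 ≤ 10 ^ 20 * pp j (z + d) := by linarith
  have hkg : k = ga j ∨ k = gb j := by
    by_contra hc
    push Not at hc
    have h1 := c2 hc.1 hc.2
    have h2 := le_abs_self (pp j (z + d))
    linarith
  have hcase : (h = ga j ∧ k = gb j) ∨ (h = gb j ∧ k = ga j) := by
    rcases hS.hh with e | e
    · left
      refine ⟨e, ?_⟩
      rcases hkg with f | f
      · exact absurd (f.trans e.symm) hkh
      · exact f
    · right
      refine ⟨e, ?_⟩
      rcases hkg with f | f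
      · exact f
      · exact absurd (f.trans e.symm) hkh
  refine ⟨?_, hcase⟩
  refine ⟨hlo, hhi, hfe, hj', ?_, ?_, k2, k3, k4⟩
  · rcases hcase with ⟨e, f⟩ | ⟨e, f⟩
    · rw [← e]; exact hh'
    · rw [← f]; exact hkz'
  · rcases hcase with ⟨e, f⟩ | ⟨e, f⟩
    · rw [← f]; exact hkz'
    · rw [← e]; exact hh'

end Pool.Agent.Helper53.CXD
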